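import Pool.Agent.H88.QRigidDefs
import Pool.Agent.H88.QRigid

set_option autoImplicit false

namespace Pool.Agent.Results.MP_24d2d6_an.NoLambda

open Pool.Agent.H88.QRigid

theorem result (K : Type) [RCLike K] :
    ∃ (X : Type) (_ : NormedAddCommGroup X) (_ : NormedSpace K X) (_ : CompleteSpace X)
      (_ : TopologicalSpace.SeparableSpace X) (T : X →L[K] X),
      QuasiRigid T ∧ ∀ L : X →L[K] X, ¬ Omega T ⊆ sotClosure (leftOrbit T L) :=
  ⟨Y K, inferInstance, inferInstance, inferInstance,
    Pool.Agent.H88.LpDyn.separable_lp (by norm_num), T K, one_mem,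
    fun L h => not_mem L (h one_mem)⟩

end Pool.Agent.Results.MP_24d2d6_an.NoLambda
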